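import Pool.Agent.Q62.FS.Stm

/-! Project FS: assembly. -/

set_option autoImplicit false

namespace Pool.Agent.Q62.FS

open Filter Topology Set

theorem abs_of (bas : S_BAS) (con : S_CON) (upp : S_UPP) (gre : S_GRE) (low : S_LOW)
    (nnn : S_NNN) (l : ℕ → ℝ) (h : Hyp l) :
    Abs (fun x => (J l x : ℝ)) (S l) (V l) (fun x => (N l x : ℝ)) := by
  obtain ⟨b1, b2, b3, b4⟩ := bas l h
  obtain ⟨n1, n2, n3⟩ := nnn bas upp gre low l h
  exact ⟨fun x _ => Nat.cast_nonneg _, fun x _ => b3 x, fun x y _ hxy => b4 x y hxy,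
    fun x hx => b2 x hx, fun x y hx hxy => con bas l h x y hx hxy, fun x hx => n2 x hx,
    fun x c hx hc hy => n3 x c hx hc hy⟩

/-- from all parts to the theorem -/
theorem fin (bas : S_BAS) (con : S_CON) (zer : S_ZER) (upp : S_UPP) (gre : S_GRE) (low : S_LOW)
    (nnn : S_NNN) (ltj : S_LTJ) (jtl : S_JTL) (abe : S_ABE) (tau : S_TAU) (vlo : S_VLO)
    (pts : S_PTS) (der : S_DER) (mn : S_MAIN) (dir : S_DIR) : S_FIN := by
  intro d hd0 hd1 l h q hq
  have A := abs_of bas con upp gre low nnn l h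
  have hd : 0 < 1 - d := by linarith
  have hqd : 0 < q ^ d := Real.rpow_pos_of_pos hq d
  have hC : 0 < q ^ d / (1 - d) := div_pos hqd hd
  constructor
  · intro hl
    have hJ := ltj bas l h d q hd0 hq hl
    have hS := abe (fun x => (J l x : ℝ)) (S l) d (q ^ d) hd0 hd1 hqd.le A.co
      (fun x hx => ⟨A.j0 x hx, by
        rw [A.sv x hx]
        have := mul_nonneg hx.le (A.j0 x hx)
        have := A.v0 x hx
        linarith⟩) (zer l h) hJ
    exact dir _ _ _ _ d (q ^ d) A hd0 hd1 hqd hJ hS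
  · intro hN
    have hS := mn vlo pts der _ _ _ _ d _ A hd0 hd1 hC hN
    have hJ := tau (fun x => (J l x : ℝ)) (S l) d _ hd0 hd1 hC.le A.co hS
    have e : (1 - d) * (q ^ d / (1 - d)) = q ^ d := by field_simp
    rw [e] at hJ
    exact jtl bas l h d q hd0 hq hJ

end Pool.Agent.Q62.FS
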