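import Pool.Agent.Q62.FS.Stm

/-! Project FS: FS1, FS2, FS4. -/

set_option autoImplicit false

namespace Pool.Agent.Q62.FS

open Filter Topology Set

theorem fin_set (l : ℕ → ℝ) (h : Hyp l) (x : ℝ) (hx : 0 < x) : {j : ℕ | x ≤ l j}.Finite := by
  have h0 := h.sum.tendsto_atTop_zero
  have h1 : ∀ᶠ j : ℕ in atTop, l j < x := h0.eventually (gt_mem_nhds hx)
  rw [eventually_atTop] at h1
  obtain ⟨n, hn⟩ := h1
  refine (Set.finite_lt_nat n).subset ?_
  intro j hj
  by_contra hc
  have := hn j (not_lt.mp hc)
  exact absurd hj (not_le.mpr this)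

theorem t_BAS : S_BAS := by
  intro l h
  have b1 : ∀ x : ℝ, 0 < x → ∀ j : ℕ, x ≤ l j ↔ j < J l x := by
    intro x hx j
    have hf := fin_set l h x hx
    -- the set is an initial segment
    have hex : ∃ n : ℕ, ¬ (x ≤ l n) := by
      by_contra hc
      push Not at hc
      have : {j : ℕ | x ≤ l j} = Set.univ := by ext j; simp [hc j]
      rw [this] at hf
      exact Set.infinite_univ hf
    classical
    have hset : {j : ℕ | x ≤ l j} = Set.Iio (Nat.find hex) := by
      ext i
      constructor
      · intro hi
        by_contra hc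
        have h1 : Nat.find hex ≤ i := not_lt.mp hc
        exact Nat.find_spec hex (le_trans hi (h.anti h1))
      · intro hi
        have := Nat.find_min hex hi
        push Not at this
        exact this
    have hJ : J l x = Nat.find hex := by
      unfold J
      rw [hset, Set.ncard_eq_toFinset_card', Set.toFinset_Iio, Nat.card_Iio]
    rw [hJ]
    exact (Set.ext_iff.mp hset j)
  have hterm : ∀ x : ℝ, Summable (fun j : ℕ => if l j < x then l j else 0) := by
    intro x
    refine Summable.of_nonneg_of_le (fun j => ?_) (fun j => ?_) h.sum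
    · split_ifs
      · exact (h.pos j).le
      · exact le_rfl
    · split_ifs
      · exact le_rfl
      · exact (h.pos j).le
  refine ⟨b1, ?_, ?_, ?_⟩
  · intro x hx
    have hsp : ∀ j : ℕ, min (l j) x = (if j < J l x then x else 0) +
        (if l j < x then l j else 0) := by
      intro j
      by_cases hj : x ≤ l j
      · rw [if_pos ((b1 x hx j).mp hj), if_neg (not_lt.mpr hj), min_eq_right hj, add_zero]
      · have h1 : ¬ j < J l x := fun hc => hj ((b1 x hx j).mpr hc)
        rw [if_neg h1, if_pos (not_le.mp hj), min_eq_left (not_le.mp hj).le, zero_add]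
    have hfs : Summable (fun j : ℕ => if j < J l x then x else 0) := by
      refine summable_of_finite_support ((Set.finite_lt_nat (J l x)).subset ?_)
      intro j hj
      by_contra hc
      exact hj (if_neg hc)
    have hsum : ∑' j : ℕ, (if j < J l x then x else 0) = x * (J l x : ℝ) := by
      rw [tsum_eq_sum (s := Finset.range (J l x))]
      · rw [Finset.sum_congr rfl (g := fun _ => x)]
        · simp [mul_comm]
        · intro j hj
          rw [if_pos (Finset.mem_range.mp hj)]
      · intro j hj
        rw [if_neg (fun hc => hj (Finset.mem_range.mpr hc))]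
    unfold S V
    rw [tsum_congr hsp, hfs.tsum_add (hterm x), hsum]
  · intro x
    refine tsum_nonneg (fun j => ?_)
    split_ifs
    · exact (h.pos j).le
    · exact le_rfl
  · intro x y hxy
    refine (hterm x).tsum_le_tsum (fun j => ?_) (hterm y)
    by_cases h1 : l j < x
    · rw [if_pos h1, if_pos (lt_of_lt_of_le h1 hxy)]
    · rw [if_neg h1]
      split_ifs
      · exact (h.pos j).le
      · exact le_rfl

theorem sum_min (l : ℕ → ℝ) (h : Hyp l) (x : ℝ) (hx : 0 < x) :
    Summable (fun j : ℕ => min (l j) x) :=
  Summable.of_nonneg_of_le (fun j => le_min (h.pos j).le hx.le) (fun j => min_le_left _ _) h.sum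

theorem t_CON : S_CON := by
  intro bas l h x y hx hxy
  obtain ⟨b1, b2, b3, b4⟩ := bas l h
  have hy : 0 < y := lt_of_lt_of_le hx hxy
  have hz : 0 ≤ y - x := by linarith
  have hfs : ∀ (n : ℕ) (c : ℝ), Summable (fun j : ℕ => if j < n then c else 0) := by
    intro n c
    refine summable_of_finite_support ((Set.finite_lt_nat n).subset ?_)
    intro j hj
    by_contra hc
    exact hj (if_neg hc)
  have hsum : ∀ (n : ℕ) (c : ℝ), ∑' j : ℕ, (if j < n then c else 0) = c * (n : ℝ) := by
    intro n c
    rw [tsum_eq_sum (s := Finset.range n)]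
    · rw [Finset.sum_congr rfl (g := fun _ => c)]
      · simp [mul_comm]
      · intro j hj
        rw [if_pos (Finset.mem_range.mp hj)]
    · intro j hj
      rw [if_neg (fun hc => hj (Finset.mem_range.mpr hc))]
  have hd : S l y - S l x = ∑' j : ℕ, (min (l j) y - min (l j) x) := by
    unfold S
    rw [(sum_min l h y hy).tsum_sub (sum_min l h x hx)]
  have hds : Summable (fun j : ℕ => min (l j) y - min (l j) x) :=
    (sum_min l h y hy).sub (sum_min l h x hx)
  rw [hd]
  constructor
  · rw [← hsum]
    refine (hfs _ _).tsum_le_tsum (fun j => ?_) hds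
    by_cases hj : y ≤ l j
    · rw [if_pos ((b1 y hy j).mp hj), min_eq_right hj, min_eq_right (le_trans hxy hj)]
    · have h1 : ¬ j < J l y := fun hc => hj ((b1 y hy j).mpr hc)
      rw [if_neg h1, min_eq_left (not_le.mp hj).le]
      have := min_le_left (l j) x
      linarith
  · rw [← hsum]
    refine hds.tsum_le_tsum (fun j => ?_) (hfs _ _)
    by_cases hj : x ≤ l j
    · rw [if_pos ((b1 x hx j).mp hj), min_eq_right hj]
      have := min_le_right (l j) y
      linarith
    · have h1 : ¬ j < J l x := fun hc => hj ((b1 x hx j).mpr hc)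
      rw [if_neg h1, min_eq_left (not_le.mp hj).le]
      have := min_le_left (l j) y
      linarith

theorem t_UPP : S_UPP := by
  intro l h x n hx ⟨g, hg⟩
  have hm := sum_min l h x hx
  have hcl : ∀ i : Fin n, Summable (fun j : ℕ => if g j = i then min (l j) x else 0) := by
    intro i
    refine Summable.of_nonneg_of_le (fun j => ?_) (fun j => ?_) hm
    · split_ifs
      · exact le_min (h.pos j).le hx.le
      · exact le_rfl
    · split_ifs
      · exact le_rfl
      · exact le_min (h.pos j).le hx.le
  have h1 : ∀ i : Fin n, x ≤ ∑' j : ℕ, if g j = i then min (l j) x else 0 := by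
    intro i
    by_cases hex : ∃ j, g j = i ∧ x ≤ l j
    · obtain ⟨j, hj1, hj2⟩ := hex
      have h2 := (hcl i).le_tsum j (fun k _ => by
        split_ifs
        · exact le_min (h.pos k).le hx.le
        · exact le_rfl)
      rw [if_pos hj1, min_eq_right hj2] at h2
      exact h2
    · push Not at hex
      refine le_trans (hg i) (le_of_eq (tsum_congr fun j => ?_))
      by_cases hj : g j = i
      · rw [if_pos hj, if_pos hj, min_eq_left (hex j hj).le]
      · rw [if_neg hj, if_neg hj]
  have h2 : ∑ i : Fin n, ∑' j : ℕ, (if g j = i then min (l j) x else 0) = S l x := by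
    unfold S
    rw [← Summable.tsum_finsetSum (fun i _ => hcl i)]
    refine tsum_congr fun j => ?_
    rw [Finset.sum_ite_eq]
    simp
  have h3 : ∑ i : Fin n, x ≤ ∑ i : Fin n, ∑' j : ℕ, (if g j = i then min (l j) x else 0) :=
    Finset.sum_le_sum fun i _ => h1 i
  rw [h2] at h3
  simpa using h3

end Pool.Agent.Q62.FS
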