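import Mathlib

/-! Project FS (helper62), row MP_f4cb44_an: the mass distribution function of a nonincreasing
summable sequence of positive numbers decides Minkowski measurability.

Notation: `l : ℕ → ℝ` positive, antitone, summable.
`J l x` = number of terms which are at least `x`,
`S l x` = sum of `min (l j) x`,
`V l x` = sum of the terms smaller than `x`,
`Splits l x n` = `ℕ` can be split into `n` sets with sums at least `x`,
`N l x` = the largest such `n`.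

Plan: `J + c - 1 ≤ N ≤ S / x` whenever `c y ≤ V y` for all `0 < y ≤ x` (greedy packing), and
the rest is real analysis: `N x ^ d → C` forces `S x ^ (d-1) → C` (statement `S_MAIN`) and this
forces `J x ^ d → (1 - d) C`. -/

set_option autoImplicit false

namespace Pool.Agent.Q62.FS

open Filter Topology Set

/-- the number of terms which are at least `x` -/
noncomputable def J (l : ℕ → ℝ) (x : ℝ) : ℕ := Set.ncard {j : ℕ | x ≤ l j}

/-- the sum of the truncated terms -/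
noncomputable def S (l : ℕ → ℝ) (x : ℝ) : ℝ := ∑' j : ℕ, min (l j) x

/-- the sum of the terms smaller than `x` -/
noncomputable def V (l : ℕ → ℝ) (x : ℝ) : ℝ := ∑' j : ℕ, if l j < x then l j else 0

/-- `ℕ` can be split into `n` disjoint sets with sums at least `x` -/
def Splits (l : ℕ → ℝ) (x : ℝ) (n : ℕ) : Prop :=
  ∃ g : ℕ → Fin n, ∀ i : Fin n, x ≤ ∑' j : ℕ, if g j = i then l j else 0

/-- the mass distribution function -/
noncomputable def N (l : ℕ → ℝ) (x : ℝ) : ℕ := sSup {n : ℕ | Splits l x n}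

/-- the standing hypotheses -/
structure Hyp (l : ℕ → ℝ) : Prop where
  pos : ∀ j, 0 < l j
  anti : Antitone l
  sum : Summable l

/-! ### sequences -/

/-- FS1.  `J`, `S`, `V`.
Proof: the set `{j | x ≤ l j}` is finite since `l` tends to `0`; as `l` is antitone it is the set
`{j | j < J l x}`.  `S = x J + V` by splitting the sum: `min (l j) x = x` on this finite set and
`= l j` off it.  `V` is monotone in `x` termwise. -/
def S_BAS : Prop := ∀ l : ℕ → ℝ, Hyp l →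
  (∀ x : ℝ, 0 < x → ∀ j : ℕ, x ≤ l j ↔ j < J l x) ∧
  (∀ x : ℝ, 0 < x → S l x = x * (J l x : ℝ) + V l x) ∧
  (∀ x : ℝ, 0 ≤ V l x) ∧ (∀ x y : ℝ, x ≤ y → V l x ≤ V l y)

/-- FS2.  `(y - x) J y ≤ S y - S x ≤ (y - x) J x` for `0 < x ≤ y`.
Proof: termwise, `min (l j) y - min (l j) x` is `y - x` if `y ≤ l j`, it is `0` if `l j < x`, and it
always lies between `0` and `y - x`; sum over `j` (finitely many terms are nonzero, the sums of the
bounds are `(y - x) J`). -/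
def S_CON : Prop := S_BAS → ∀ l : ℕ → ℝ, Hyp l → ∀ x y : ℝ, 0 < x → x ≤ y →
  (y - x) * (J l y : ℝ) ≤ S l y - S l x ∧ S l y - S l x ≤ (y - x) * (J l x : ℝ)

/-- FS3.  `S l x → 0` as `x → 0+`.
Proof: dominated convergence (`tendsto_tsum_of_dominated_convergence`), bound `l j`. -/
def S_ZER : Prop := ∀ l : ℕ → ℝ, Hyp l → Tendsto (S l) (𝓝[>] 0) (𝓝 0)

/-- FS4.  The upper bound `n x ≤ S l x` if `Splits l x n`.
Proof: for each class `i` of the splitting, `x ≤ ∑_{g j = i} min (l j) x`: if some `j` in the class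
has `x ≤ l j` then this term alone is `x`, otherwise `min (l j) x = l j` on the class.  Sum over
`i : Fin n`: the sums over the classes add up to `S l x` (exchange the finite sum over `i` and the
`tsum`). -/
def S_UPP : Prop := ∀ l : ℕ → ℝ, Hyp l → ∀ (x : ℝ) (n : ℕ), 0 < x → Splits l x n →
  (n : ℝ) * x ≤ S l x

/-- FS5.  Greedy packing.  If `B x ≤ V l x` and `B l_j ≤ V l (l_j)` for all `j` with `l_j < x`, then
the terms smaller than `x` contain `B` disjoint subfamilies with sums at least `x` (`h j = some i`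
means that `j` is in the `i`-th subfamily).
Proof: go through the indices `j ≥ J l x` (the terms smaller than `x`) in increasing order and keep
residuals `r_1, ..., r_B ≥ 0`, all equal to `x` at the beginning.  At step `j` let `i` be an index
with the largest residual.  If `r_i ≥ l_j` put `j` in the family `i` and replace `r_i` by
`r_i - l_j`; otherwise skip `j`.  Let `R_j` be the sum of the residuals before step `j`; it is
nonincreasing and nonnegative, let `R` be its limit.  Claim `R = 0`.  If infinitely many `j` are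
skipped then at these `R_j ≤ B l_j → 0`.  If no `j` is skipped, then `R = B x - V l x ≤ 0`.  If `j`
is the last skipped index then `R_j < B l_j ≤ V l (l_j) ≤ ∑_{i > j} l_i` (if `B > 0`), and
`R = R_(j+1) - ∑_{i > j} l_i < 0`, impossible.  So `R = 0`, every residual tends to `0`, and the sum
of each family is `x`. -/
def S_GRE : Prop := S_BAS → ∀ l : ℕ → ℝ, Hyp l → ∀ (x : ℝ) (B : ℕ), 0 < x → (B : ℝ) * x ≤ V l x →
  (∀ j : ℕ, l j < x → (B : ℝ) * l j ≤ V l (l j)) →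
  ∃ h : ℕ → Option (Fin B), (∀ j : ℕ, x ≤ l j → h j = none) ∧
    ∀ i : Fin B, x ≤ ∑' j : ℕ, if h j = some i then l j else 0

/-- FS6.  Lower bound: if `0 < J l x + B` then `ℕ` splits into `J l x + B` sets.
Proof: the `J l x` indices `j < J l x` have `x ≤ l j`, each of them is a class of its own; the `B`
families of FS5 are the other classes; all remaining indices are put in some fixed class.  Use
`Fin (J + B)` with `Fin.castAdd`, `Fin.natAdd`. -/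
def S_LOW : Prop := S_BAS → ∀ l : ℕ → ℝ, Hyp l → ∀ (x : ℝ) (B : ℕ), 0 < x → 0 < J l x + B →
  (∃ h : ℕ → Option (Fin B), (∀ j : ℕ, x ≤ l j → h j = none) ∧
    ∀ i : Fin B, x ≤ ∑' j : ℕ, if h j = some i then l j else 0) → Splits l x (J l x + B)

/-- FS7.  Properties of `N` (uses FS1, FS4, FS5, FS6 as hypotheses).
Proof: the set `{n | Splits l x n}` is bounded by `S l x / x` (FS4) and contains `1` if
`x ≤ ∑ l` (constant `g`), so `N` is its greatest element, `Nat.sSup_mem`.  `N x ≤ S l x` for all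
`x > 0` (if the set is empty, `N = 0`).  For the lower bound let `c ≥ 0` with `c y ≤ V l y` for
`0 < y ≤ x` and `B = ⌊c⌋`; then FS5 and FS6 apply if `0 < J + B`, and if `J + B = 0` then
`J + c - 1 < 0 ≤ N`. -/
def S_NNN : Prop := S_BAS → S_UPP → S_GRE → S_LOW → ∀ l : ℕ → ℝ, Hyp l →
  (∀ x : ℝ, 0 < x → x ≤ ∑' j, l j → IsGreatest {n : ℕ | Splits l x n} (N l x)) ∧
  (∀ x : ℝ, 0 < x → (N l x : ℝ) * x ≤ S l x) ∧
  (∀ x c : ℝ, 0 < x → 0 ≤ c → (∀ y : ℝ, 0 < y → y ≤ x → c * y ≤ V l y) →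
    (J l x : ℝ) + c - 1 ≤ (N l x : ℝ))

/-- FS8.  From `l` to `J`.  Proof: let `n = J l x`; then `n → ∞` as `x → 0+` (all terms are
positive), and for `n ≥ 1`: `l n < x ≤ l (n - 1)` (FS1), so
`n (l n)^d < n x^d ≤ n (l (n-1))^d = (l (n-1) * n^(1/d))^d`, and
`n (l n)^d = n / (n+1) * (l n * (n+1)^(1/d))^d`; both sides tend to `q^d`. -/
def S_LTJ : Prop := S_BAS → ∀ l : ℕ → ℝ, Hyp l → ∀ d q : ℝ, 0 < d → 0 < q →
  Tendsto (fun j : ℕ => l j * ((j : ℝ) + 1) ^ (1 / d)) atTop (𝓝 q) →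
  Tendsto (fun x : ℝ => (J l x : ℝ) * x ^ d) (𝓝[>] 0) (𝓝 (q ^ d))

/-- FS9.  From `J` to `l`.  Proof: `j + 1 ≤ J l (l j)` and `J l x ≤ j` for `x > l j` (FS1), and
`l j → 0+`.  So `(j + 1) (l j)^d ≤ J l (l j) * (l j)^d → q^d`, and for `e > 0`
`(j + 1) (l j)^d ≥ J l ((1+e) l j) * ((1+e) l j)^d * (1 + e)^(-d) → q^d (1+e)^(-d)`.  Hence
`(j + 1) (l j)^d → q^d`; take the power `1/d`. -/
def S_JTL : Prop := S_BAS → ∀ l : ℕ → ℝ, Hyp l → ∀ d q : ℝ, 0 < d → 0 < q →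
  Tendsto (fun x : ℝ => (J l x : ℝ) * x ^ d) (𝓝[>] 0) (𝓝 (q ^ d)) →
  Tendsto (fun j : ℕ => l j * ((j : ℝ) + 1) ^ (1 / d)) atTop (𝓝 q)

/-- FS10.  The sequences of Minkowski dimension `d < 1` are summable.
Proof: `l j ≤ b (j+1)^(-1/d)` for large `j` and `1/d > 1`. -/
def S_SUM : Prop := ∀ (l : ℕ → ℝ) (d b : ℝ), (∀ j, 0 < l j) → 0 < d → d < 1 →
  (∀ᶠ j : ℕ in atTop, l j * ((j : ℝ) + 1) ^ (1 / d) ≤ b) → Summable l

/-! ### real functions -/

/-- FS11.  Abelian theorem.  Let `s` be the function `S(x) x^(d-1)`.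
Proof: let `0 < t < 1`.  From the second hypothesis `S x - S (t x) ≤ (1 - t) x J (t x)` and
`S x - S (t x) ≥ (1 - t) x J x`.  Given `e > 0`, for all small `x`:
`s x ≤ t^(1-d) s (t x) + (1 - t) t^(-d) (L + e)` and `s x ≥ t^(1-d) s (t x) + (1 - t) (L - e)`.
Iterate: `t^((1-d) n) s (t^n x) = S (t^n x) x^(d-1) → 0` as `n → ∞` for fixed `x`, so
`(1 - t)(L - e) / (1 - t^(1-d)) ≤ s x ≤ (1 - t) t^(-d) (L + e) / (1 - t^(1-d))` for all small `x`.
Finally `(1 - t) / (1 - t^(1-d)) → 1/(1-d)` as `t → 1-` (derivative of `t^(1-d)` at `1`). -/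
def S_ABE : Prop := ∀ (J S : ℝ → ℝ) (d L : ℝ), 0 < d → d < 1 → 0 ≤ L →
  (∀ x y : ℝ, 0 < x → x ≤ y → (y - x) * J y ≤ S y - S x ∧ S y - S x ≤ (y - x) * J x) →
  (∀ x : ℝ, 0 < x → 0 ≤ J x ∧ 0 ≤ S x) → Tendsto S (𝓝[>] 0) (𝓝 0) →
  Tendsto (fun x : ℝ => J x * x ^ d) (𝓝[>] 0) (𝓝 L) →
  Tendsto (fun x : ℝ => S x * x ^ (d - 1)) (𝓝[>] 0) (𝓝 (L / (1 - d)))

/-- FS12.  Tauberian theorem (monotone density).
Proof: let `0 < t < 1`.  `(1 - t) x J x ≤ S x - S (t x)`, so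
`J x * x^d ≤ (s x - t^(1-d) s (t x)) / (1 - t) → C (1 - t^(1-d)) / (1 - t)`, and
`S (x/t) - S x ≤ (x/t - x) J x`, so
`J x * x^d ≥ (t^(d-1) s (x/t) - s x) / (1/t - 1) → C (t^(d-1) - 1) / (1/t - 1)`.
Both limits tend to `C (1 - d)` as `t → 1-`. -/
def S_TAU : Prop := ∀ (J S : ℝ → ℝ) (d C : ℝ), 0 < d → d < 1 → 0 ≤ C →
  (∀ x y : ℝ, 0 < x → x ≤ y → (y - x) * J y ≤ S y - S x ∧ S y - S x ≤ (y - x) * J x) →
  Tendsto (fun x : ℝ => S x * x ^ (d - 1)) (𝓝[>] 0) (𝓝 C) →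
  Tendsto (fun x : ℝ => J x * x ^ d) (𝓝[>] 0) (𝓝 ((1 - d) * C))

/-- the abstract situation: `J`, `S`, `V`, `N` are functions on the positive half-line -/
structure Abs (J S V N : ℝ → ℝ) : Prop where
  j0 : ∀ x, 0 < x → 0 ≤ J x
  v0 : ∀ x, 0 < x → 0 ≤ V x
  vm : ∀ x y, 0 < x → x ≤ y → V x ≤ V y
  sv : ∀ x, 0 < x → S x = x * J x + V x
  co : ∀ x y : ℝ, 0 < x → x ≤ y → (y - x) * J y ≤ S y - S x ∧ S y - S x ≤ (y - x) * J x
  up : ∀ x, 0 < x → N x * x ≤ S x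
  lo : ∀ x c : ℝ, 0 < x → 0 ≤ c → (∀ y : ℝ, 0 < y → y ≤ x → c * y ≤ V y) → J x + c - 1 ≤ N x

/-- FS13.  Lower bound for `V`.
Proof: `J x - 1 ≤ N x` (`lo` with `c = 0`), so `J x ≤ C (1 + e) x^(-d)` for small `x`; and
`V x = S x - x J x ≥ S (x/2) - (x/2) J x` (`co` with `x/2 ≤ x`), and
`S (x/2) ≥ (x/2) N (x/2) ≥ C (1 - e) (x/2)^(1-d)`.  So
`V x ≥ C x^(1-d) ((1 - e) 2^(d-1) - (1 + e)/2)`, where `2^(d-1) > 1/2`; take `e` small. -/
def S_VLO : Prop := ∀ (J S V N : ℝ → ℝ) (d C : ℝ), Abs J S V N → 0 < d → d < 1 → 0 < C →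
  Tendsto (fun x : ℝ => N x * x ^ d) (𝓝[>] 0) (𝓝 C) →
  ∃ v x0 : ℝ, 0 < v ∧ 0 < x0 ∧ ∀ x, 0 < x → x ≤ x0 → v * x ^ (1 - d) ≤ V x

/-- FS14.  The points `a ≤ x ≤ b`.
Proof: let `m` be the infimum of `V y / y` over `0 < y ≤ x`; by FS13 `m ≥ v x^(-d) > 0`
(`y^(-d) ≥ x^(-d)`).  Choose `a ≤ x` with `V a / a ≤ (1 + e) m`.  Let `E = {y ≥ x | V y ≤ m y}`.
(i) `E` contains a point `≤ K x`, `K` a constant: otherwise `m y ≤ V y` for all `0 < y ≤ K x`, so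
by `lo` and `j0`: `m - 1 ≤ N (K x)`, while `N (K x) ≤ 2 C (K x)^(-d)`; this is false for small `x`
if `K^d v ≥ 4 C`.  Let `b' = inf E`, so `x ≤ b' ≤ K x`; all `0 < y < b'` satisfy `m y ≤ V y`.
Choose `b ∈ E` with `b' ≤ b ≤ (1 + e) b'`; then `V b ≤ m b`; for `b' ≤ y ≤ b`:
`V y ≥ V z ≥ m z` for all `z < b'`, so `V y ≥ m b' ≥ m y / (1 + e)`.  (`b ≤ (1 + e) K x ≤ x1` for
small `x`.) -/
def S_PTS : Prop := ∀ (J S V N : ℝ → ℝ) (d C : ℝ), Abs J S V N → 0 < d → d < 1 → 0 < C →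
  Tendsto (fun x : ℝ => N x * x ^ d) (𝓝[>] 0) (𝓝 C) →
  (∃ v x0 : ℝ, 0 < v ∧ 0 < x0 ∧ ∀ x, 0 < x → x ≤ x0 → v * x ^ (1 - d) ≤ V x) →
  ∀ e x1 : ℝ, 0 < e → 0 < x1 → ∀ᶠ x in 𝓝[>] (0 : ℝ), ∃ a b m : ℝ, 0 < a ∧ a ≤ x ∧ x ≤ b ∧
    b ≤ x1 ∧ 0 < m ∧ (∀ y, 0 < y → y ≤ x → m * y ≤ V y) ∧ V a ≤ (1 + e) * m * a ∧
    V b ≤ m * b ∧ ∀ y, 0 < y → y ≤ b → m / (1 + e) * y ≤ V y

/-- FS15.  The two derivative inequalities.
Proof: (1) `co` with `t a ≤ a`: `(1 - t) a J a ≤ S a - S (t a)`, and `V a = S a - a J a`.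
(2) `co` with `b ≤ b / t`: `S (b/t) - S b ≤ (b/t - b) J b`, and `V b = S b - b J b`. -/
def S_DER : Prop := ∀ (J S V N : ℝ → ℝ), Abs J S V N → ∀ t : ℝ, 0 < t → t < 1 →
  (∀ a, 0 < a → S (t * a) - t * S a ≤ (1 - t) * V a) ∧
  (∀ b, 0 < b → (1 - t) * V b ≤ S b - t * S (b / t))

/-- FS16.  **The main step**: `N x^d → C` implies `S x^(d-1) → C`.
Proof: the lower bound is `up`: `S x * x^(d-1) ≥ N x * x^d`.  For the upper bound let `0 < t < 1` and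
`0 < e < 1/2` and take `a, b, m` from FS14 (for small `x`, with `x1` so small that
`C (1 - e) y^(-d) ≤ N y` and `N y + 1 ≤ C (1 + e) y^(-d)` for `0 < y ≤ x1 / t`).
By `lo` at `a` (`c = m`; note `m y ≤ V y` for `y ≤ a`) and at `b` (`c = m/(1+e)`), and by
`V a / a ≤ (1 + e) m`, `V b / b ≤ m` and `sv`:
`S a / a = J a + V a / a ≤ N a + 1 + e m ≤ N a + 1 + e S a / a` (as `m ≤ V a / a ≤ S a / a`), so
`S a / a ≤ (1 + e)/(1 - e) C a^(-d)`, and in the same way `S b / b ≤ (1 + e)/(1 - e) C b^(-d)`.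
With FS15 and `S y ≥ y N y` at `y = t a` and `y = b/t`:
`(1 - t) V a / a ≥ t C a^(-d) ((1 - e) t^(-d) - (1 + e)/(1 - e))`,
`(1 - t) V b / b ≤ C b^(-d) ((1 + e)/(1 - e) - (1 - e) t^d)`, and
`V a / a ≤ (1 + e) m ≤ (1 + e)^2 V b / b`.  Hence
`(b/a)^d ≤ (1+e)^2 ((1+e)/(1-e) - (1-e) t^d) / (t ((1-e) t^(-d) - (1+e)/(1-e)))` when the denominator
is positive; for `e → 0` the right hand side tends to `(1 - t^d) / (t (t^(-d) - 1)) = t^(d-1)`, and
this tends to `1` for `t → 1`.  So for every `r > 1` we can choose `t` and then `e` such that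
`(b/a)^d ≤ r` and `(1+e)/(1-e) ≤ r` for small `x`.  Finally `S x ≤ S b` (`co`), so
`S x * x^(d-1) ≤ (b/x)^(1-d) * (S b / b) * b^d ≤ (b/a)^(1-d) r C ≤ r^((1-d)/d) r C`. -/
def S_MAIN : Prop := S_VLO → S_PTS → S_DER →
  ∀ (J S V N : ℝ → ℝ) (d C : ℝ), Abs J S V N → 0 < d → d < 1 → 0 < C →
  Tendsto (fun x : ℝ => N x * x ^ d) (𝓝[>] 0) (𝓝 C) →
  Tendsto (fun x : ℝ => S x * x ^ (d - 1)) (𝓝[>] 0) (𝓝 C)

/-- FS17.  The other direction: `J x^d → L` and `S x^(d-1) → L/(1-d)` imply `N x^d → L/(1-d)`.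
Proof: upper bound `up`.  Lower bound: `V x * x^(d-1) = S x * x^(d-1) - J x * x^d → L d/(1-d) = Q`.
For `e > 0` and all small `x`: `V y ≥ (Q - e) y^(1-d)` for `0 < y ≤ x`, so `lo` applies with
`c = (Q - e) x^(-d)` (as `x^(-d) ≤ y^(-d)`; if `Q - e < 0` there is nothing to do, `Q > 0`), and
`N x * x^d ≥ J x * x^d + Q - e - x^d`. -/
def S_DIR : Prop := ∀ (J S V N : ℝ → ℝ) (d L : ℝ), Abs J S V N → 0 < d → d < 1 → 0 < L →
  Tendsto (fun x : ℝ => J x * x ^ d) (𝓝[>] 0) (𝓝 L) →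
  Tendsto (fun x : ℝ => S x * x ^ (d - 1)) (𝓝[>] 0) (𝓝 (L / (1 - d))) →
  Tendsto (fun x : ℝ => N x * x ^ d) (𝓝[>] 0) (𝓝 (L / (1 - d)))

/-! ### the theorem -/

/-- the answer -/
def S_FIN : Prop := ∀ (d : ℝ), 0 < d → d < 1 → ∀ l : ℕ → ℝ, Hyp l → ∀ q : ℝ, 0 < q →
  (Tendsto (fun j : ℕ => l j * ((j : ℝ) + 1) ^ (1 / d)) atTop (𝓝 q) ↔
    Tendsto (fun x : ℝ => (N l x : ℝ) * x ^ d) (𝓝[>] 0) (𝓝 (q ^ d / (1 - d))))

end Pool.Agent.Q62.FS
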