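import Pool.Agent.Q62.FS.Stm

/-! Project FS: FS3, FS10, FS15. -/

set_option autoImplicit false

namespace Pool.Agent.Q62.FS

open Filter Topology Set

theorem t_ZER : S_ZER := by
  intro l h
  have key : Tendsto (fun x : ℝ => ∑' j : ℕ, min (l j) x) (𝓝[>] 0)
      (𝓝 (∑' j : ℕ, (fun _ : ℕ => (0 : ℝ)) j)) := by
    refine tendsto_tsum_of_dominated_convergence (bound := l) h.sum ?_ ?_
    · intro j
      have h1 : Tendsto (fun x : ℝ => min (l j) x) (𝓝[>] 0) (𝓝 (min (l j) 0)) :=
        ((continuous_const.min continuous_id).tendsto (0 : ℝ)).mono_left nhdsWithin_le_nhds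
      rwa [min_eq_right (h.pos j).le] at h1
    · filter_upwards [self_mem_nhdsWithin] with x hx j
      have hx0 : (0 : ℝ) < x := hx
      rw [Real.norm_eq_abs, abs_of_nonneg (le_min (h.pos j).le hx0.le)]
      exact min_le_left _ _
  rw [tsum_zero] at key
  exact key

theorem t_SUM : S_SUM := by
  intro l d b hpos hd0 hd1 hev
  have h1 : 1 < 1 / d := by rw [lt_div_iff₀ hd0]; linarith
  have hs : Summable (fun j : ℕ => b * (1 / ((j : ℝ) + 1) ^ (1 / d))) := by
    have h2 : Summable (fun n : ℕ => 1 / ((n : ℝ)) ^ (1 / d)) :=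
      Real.summable_one_div_nat_rpow.mpr h1
    have h3 := (summable_nat_add_iff (f := fun n : ℕ => 1 / ((n : ℝ)) ^ (1 / d)) 1).mpr h2
    refine (h3.mul_left b).congr ?_
    intro j
    push_cast
    rfl
  refine Summable.of_norm_bounded_eventually_nat hs ?_
  filter_upwards [hev] with j hj
  have hp : 0 < ((j : ℝ) + 1) ^ (1 / d) := Real.rpow_pos_of_pos (by positivity) _
  rw [Real.norm_eq_abs, abs_of_pos (hpos j), mul_one_div, le_div_iff₀ hp]
  exact hj

theorem t_DER : S_DER := by
  intro J S V N A t ht0 ht1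
  refine ⟨fun a ha => ?_, fun b hb => ?_⟩
  · have hta : 0 < t * a := mul_pos ht0 ha
    have h1 := (A.co (t * a) a hta (by nlinarith)).1
    have h2 := A.sv a ha
    have h3 : (a - t * a) * J a = (1 - t) * (a * J a) := by ring
    have h4 : a * J a = S a - V a := by linarith
    rw [h3, h4] at h1
    linarith
  · have hbt : b ≤ b / t := by rw [le_div_iff₀ ht0]; nlinarith
    have h1 := (A.co b (b / t) hb hbt).2
    have h2 := A.sv b hb
    have h5 : t * (S (b / t) - S b) ≤ t * ((b / t - b) * J b) :=
      mul_le_mul_of_nonneg_left h1 ht0.le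
    have h3 : t * ((b / t - b) * J b) = (1 - t) * (b * J b) := by field_simp
    have h4 : b * J b = S b - V b := by linarith
    rw [h3, h4] at h5
    linarith

end Pool.Agent.Q62.FS
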